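import Mathlib

/-! Radical classes of groups and closure under Cartesian products. -/

universe u

namespace Pool.Agent.H384Z.Rad

/-- A class `K` of groups is radical if it is closed under homomorphic images, under normal
subgroups, and contains every group that is generated by its normal subgroups lying in `K`. -/
def IsRadicalClass (K : ∀ (G : Type u) [Group G], Prop) : Prop :=
  (∀ (G H : Type u) [Group G] [Group H] (f : G →* H), Function.Surjective f → K G → K H) ∧
  (∀ (G : Type u) [Group G] (N : Subgroup G), N.Normal → K G → K N) ∧
  (∀ (G : Type u) [Group G], sSup {N : Subgroup G | N.Normal ∧ K N} = ⊤ → K G)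

/-- A class `K` of groups is closed under Cartesian (unrestricted direct) products of arbitrary
families. -/
def ClosedUnderProducts (K : ∀ (G : Type u) [Group G], Prop) : Prop :=
  ∀ (ι : Type u) (G : ι → Type u) [∀ i, Group (G i)], (∀ i, K (G i)) → K (∀ i, G i)

end Pool.Agent.H384Z.Rad
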