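import Mathlib

/-! A class of groups defined by a game, and its closure properties. -/

universe u v w

namespace Pool.Agent.H384Z.Rad

open Set
open scoped commutatorElement

section Poly

variable {G : Type u} [Group G] {G' : Type v} [Group G']

/-- Polynomial maps in one variable that lie in the normal closure of `A`. -/
inductive Poly (A : Set G) : (G → G) → Prop
  | const {a : G} (h : a ∈ A) : Poly A fun _ => a
  | one : Poly A fun _ => 1
  | mul {φ ψ : G → G} : Poly A φ → Poly A ψ → Poly A fun z => φ z * ψ z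
  | inv {φ : G → G} : Poly A φ → Poly A fun z => (φ z)⁻¹
  | conj {φ : G → G} : Poly A φ → Poly A fun z => z * φ z * z⁻¹

theorem Poly.of_closure {A : Set G} {a : G} (h : a ∈ Subgroup.closure A) : Poly A fun _ => a := by
  induction h using Subgroup.closure_induction with
  | mem x hx => exact Poly.const hx
  | one => exact Poly.one
  | mul x y _ _ hx hy => exact hx.mul hy
  | inv x _ hx => exact hx.inv

theorem Poly.mono {A B : Set G} (h : B ⊆ Subgroup.closure A) {φ : G → G} (hφ : Poly B φ) :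
    Poly A φ := by
  induction hφ with
  | const ha => exact Poly.of_closure (h ha)
  | one => exact Poly.one
  | mul _ _ h1 h2 => exact h1.mul h2
  | inv _ h1 => exact h1.inv
  | conj _ h1 => exact h1.conj

theorem Poly.comp {A : Set G} {φ ψ : G → G} (hφ : Poly A φ) (hψ : Poly A ψ) :
    Poly A fun z => φ (ψ z) := by
  induction hφ with
  | const ha => exact Poly.const ha
  | one => exact Poly.one
  | mul _ _ h1 h2 => exact h1.mul h2
  | inv _ h1 => exact h1.inv
  | conj _ h1 => exact (hψ.mul h1).mul hψ.inv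

theorem Poly.mem_normal {A : Set G} {N : Subgroup G} (hN : N.Normal) (hA : A ⊆ N) {φ : G → G}
    (hφ : Poly A φ) (z : G) : φ z ∈ N := by
  induction hφ with
  | const ha => exact hA ha
  | one => exact N.one_mem
  | mul _ _ h1 h2 => exact N.mul_mem h1 h2
  | inv _ h1 => exact N.inv_mem h1
  | conj _ h1 => exact hN.conj_mem _ h1 z

theorem Poly.map (f : G →* G') {A : Set G} {φ : G → G} (hφ : Poly A φ) :
    ∃ φ' : G' → G', Poly (f '' A) φ' ∧ ∀ z, f (φ z) = φ' (f z) := by
  induction hφ with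
  | const ha => exact ⟨_, Poly.const (mem_image_of_mem f ha), fun _ => rfl⟩
  | one => exact ⟨_, Poly.one, fun _ => map_one f⟩
  | mul _ _ h1 h2 =>
    obtain ⟨φ', h, e⟩ := h1
    obtain ⟨ψ', h', e'⟩ := h2
    exact ⟨_, h.mul h', fun z => by simp [e, e']⟩
  | inv _ h1 =>
    obtain ⟨φ', h, e⟩ := h1
    exact ⟨_, h.inv, fun z => by simp [e]⟩
  | conj _ h1 =>
    obtain ⟨φ', h, e⟩ := h1
    exact ⟨_, h.conj, fun z => by simp [e]⟩

theorem Poly.lift (f : G →* G') {A : Set G} {φ' : G' → G'} (hφ : Poly (f '' A) φ') :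
    ∃ φ : G → G, Poly A φ ∧ ∀ z, f (φ z) = φ' (f z) := by
  induction hφ with
  | const ha =>
    obtain ⟨a, ha', rfl⟩ := ha
    exact ⟨_, Poly.const ha', fun _ => rfl⟩
  | one => exact ⟨_, Poly.one, fun _ => map_one f⟩
  | mul _ _ h1 h2 =>
    obtain ⟨φ', h, e⟩ := h1
    obtain ⟨ψ', h', e'⟩ := h2
    exact ⟨_, h.mul h', fun z => by simp [e, e']⟩
  | inv _ h1 =>
    obtain ⟨φ', h, e⟩ := h1
    exact ⟨_, h.inv, fun z => by simp [e]⟩
  | conj _ h1 =>
    obtain ⟨φ', h, e⟩ := h1
    exact ⟨_, h.conj, fun z => by simp [e]⟩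

/-- Every system of polynomial equations along the sequence is solvable. -/
def Null (A : ℕ → Set G) : Prop :=
  ∀ φ : ℕ → G → G, (∀ n, Poly (A n) (φ n)) → ∃ z : ℕ → G, ∀ n, z n = φ n (z (n + 1))

theorem Null.of_tail {A : ℕ → Set G} (h : Null fun n => A (n + 1)) : Null A := by
  intro φ hφ
  obtain ⟨z, hz⟩ := h (fun n => φ (n + 1)) fun n => hφ (n + 1)
  refine ⟨fun n => Nat.casesOn n (φ 0 (z 0)) z, fun n => ?_⟩
  cases n with
  | zero => rfl
  | succ n => exact hz n

theorem Null.map (f : G →* G') {A : ℕ → Set G} (h : Null A) : Null fun n => f '' A n := by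
  intro φ' hφ'
  choose φ hφ e using fun n => (hφ' n).lift f
  obtain ⟨z, hz⟩ := h φ hφ
  exact ⟨fun n => f (z n), fun n => by rw [← e, ← hz]⟩

theorem Null.of_normal {N : Subgroup G} (hN : N.Normal) {A : ℕ → Set N}
    (h : Null fun n => N.subtype '' A n) : Null A := by
  intro φ hφ
  choose φ' hφ' e using fun n => (hφ n).map N.subtype
  obtain ⟨z, hz⟩ := h φ' hφ'
  have hm : ∀ n, z n ∈ N := fun n => by
    rw [hz n]
    refine (hφ' n).mem_normal hN ?_ _
    rintro _ ⟨a, -, rfl⟩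
    exact a.2
  refine ⟨fun n => ⟨z n, hm n⟩, fun n => Subtype.ext ?_⟩
  exact (hz n).trans (e n ⟨z (n + 1), hm (n + 1)⟩).symm

theorem Null.of_two {A B : ℕ → Set G} (h : Null A)
    (h0 : ∀ k, B (2 * k) ⊆ Subgroup.closure (A k))
    (h1 : ∀ k, B (2 * k + 1) ⊆ Subgroup.closure (A k)) : Null B := by
  intro φ hφ
  obtain ⟨y, hy⟩ := h (fun k z => φ (2 * k) (φ (2 * k + 1) z))
    fun k => ((hφ _).mono (h0 k)).comp ((hφ _).mono (h1 k))
  refine ⟨fun n => if n % 2 = 0 then y (n / 2) else φ n (y (n / 2 + 1)), fun n => ?_⟩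
  rcases Nat.even_or_odd' n with ⟨k, rfl | rfl⟩
  · have e1 : 2 * k % 2 = 0 := by omega
    have e2 : ¬ (2 * k + 1) % 2 = 0 := by omega
    have e3 : 2 * k / 2 = k := by omega
    have e4 : (2 * k + 1) / 2 = k := by omega
    simp only [e1, e2, e3, e4, if_true, if_false]
    exact hy k
  · have e1 : (2 * k + 1 + 1) % 2 = 0 := by omega
    have e2 : ¬ (2 * k + 1) % 2 = 0 := by omega
    have e3 : (2 * k + 1 + 1) / 2 = k + 1 := by omega
    have e4 : (2 * k + 1) / 2 = k := by omega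
    simp only [e1, e2, e3, e4, if_true, if_false]

theorem Null.pi {ι : Type w} {H : ι → Type u} [∀ i, Group (H i)] {A : ℕ → Set (∀ i, H i)}
    (h : ∀ i, Null fun n => Pi.evalMonoidHom H i '' A n) : Null A := by
  intro φ hφ
  choose φ' hφ' e using fun i n => (hφ n).map (Pi.evalMonoidHom H i)
  choose z hz using fun i => h i (φ' i) (hφ' i)
  exact ⟨fun n i => z i n, fun n => funext fun i => (hz i n).trans (e i n fun i => z i (n + 1)).symm⟩

/-- `H` is a normal subgroup of `Γ`. -/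
def NormIn (H Γ : Subgroup G) : Prop := H ≤ Γ ∧ ∀ g ∈ Γ, ∀ h ∈ H, g * h * g⁻¹ ∈ H

theorem NormIn.of_normal {H : Subgroup G} (h : H.Normal) : NormIn H ⊤ :=
  ⟨le_top, fun g _ x hx => h.conj_mem x hx g⟩

theorem NormIn.map (f : G →* G') {H Γ : Subgroup G} (h : NormIn H Γ) :
    NormIn (H.map f) (Γ.map f) := by
  refine ⟨Subgroup.map_mono h.1, ?_⟩
  rintro _ ⟨g, hg, rfl⟩ _ ⟨x, hx, rfl⟩
  exact ⟨g * x * g⁻¹, h.2 g hg x hx, by simp⟩

theorem NormIn.comap (f : G' →* G) {H Γ : Subgroup G} (h : NormIn H Γ) :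
    NormIn (H.comap f) (Γ.comap f) := by
  refine ⟨Subgroup.comap_mono h.1, fun g hg x hx => ?_⟩
  have := h.2 _ hg _ hx
  simpa using this

theorem NormIn.inf {H Γ N : Subgroup G} (h : NormIn H Γ) (hN : N.Normal) : NormIn (H ⊓ N) Γ :=
  ⟨inf_le_left.trans h.1, fun g hg x hx => ⟨h.2 g hg x hx.1, hN.conj_mem x hx.2 g⟩⟩

theorem NormIn.comm_le_right {L H Γ : Subgroup G} (hL : L ≤ Γ) (h : NormIn H Γ) : ⁅L, H⁆ ≤ H :=
  Subgroup.commutator_le.2 fun l hl x hx => by
    rw [commutatorElement_def]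
    exact H.mul_mem (h.2 l (hL hl) x hx) (H.inv_mem hx)

theorem NormIn.comm_le_left {L H Γ : Subgroup G} (hL : NormIn L Γ) (h : H ≤ Γ) : ⁅L, H⁆ ≤ L := by
  rw [Subgroup.commutator_comm]
  exact hL.comm_le_right h

theorem NormIn.comm {L H Γ : Subgroup G} (hL : NormIn L Γ) (h : NormIn H Γ) :
    NormIn ⁅L, H⁆ Γ := by
  refine ⟨(h.comm_le_right hL.1).trans h.1, fun g hg x hx => ?_⟩
  have h1 : (⁅L, H⁆ : Subgroup G).map (MulAut.conj g).toMonoidHom ≤ ⁅L, H⁆ := by
    rw [Subgroup.map_commutator]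
    apply Subgroup.commutator_mono
    · rintro _ ⟨y, hy, rfl⟩
      exact hL.2 g hg y hy
    · rintro _ ⟨y, hy, rfl⟩
      exact h.2 g hg y hy
  exact h1 ⟨x, hx, rfl⟩

theorem NormIn.exists_mul {H K Γ : Subgroup G} (hH : NormIn H Γ) (hK : NormIn K Γ) {x : G}
    (hx : x ∈ H ⊔ K) : ∃ p ∈ H, ∃ q ∈ K, x = p * q := by
  let M : Subgroup G :=
    { carrier := {x | ∃ p ∈ H, ∃ q ∈ K, x = p * q}
      one_mem' := ⟨1, H.one_mem, 1, K.one_mem, by simp⟩
      mul_mem' := by
        rintro _ _ ⟨p, hp, q, hq, rfl⟩ ⟨p', hp', q', hq', rfl⟩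
        refine ⟨p * (q * p' * q⁻¹), H.mul_mem hp (hH.2 q (hK.1 hq) p' hp'), q * q',
          K.mul_mem hq hq', by group⟩
      inv_mem' := by
        rintro _ ⟨p, hp, q, hq, rfl⟩
        refine ⟨q⁻¹ * p⁻¹ * q⁻¹⁻¹, hH.2 _ (hK.1 (K.inv_mem hq)) _ (H.inv_mem hp), q⁻¹,
          K.inv_mem hq, by group⟩ }
  have : H ⊔ K ≤ M := sup_le (fun p hp => ⟨p, hp, 1, K.one_mem, by simp⟩)
    (fun q hq => ⟨1, H.one_mem, q, hq, by simp⟩)
  exact this hx

theorem NormIn.comm_sup {L H K Γ : Subgroup G} (hL : NormIn L Γ) (hH : NormIn H Γ)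
    (hK : NormIn K Γ) : ⁅L, H ⊔ K⁆ ≤ ⁅L, H⁆ ⊔ ⁅L, K⁆ := by
  refine Subgroup.commutator_le.2 fun l hl x hx => ?_
  obtain ⟨p, hp, q, hq, rfl⟩ := hH.exists_mul hK hx
  have e : ⁅l, p * q⁆ = ⁅l, p⁆ * (p * ⁅l, q⁆ * p⁻¹) := by
    simp only [commutatorElement_def]; group
  rw [e]
  exact Subgroup.mul_mem_sup (Subgroup.commutator_mem_commutator hl hp)
    ((hL.comm hK).2 p (hH.1 hp) _ (Subgroup.commutator_mem_commutator hl hq))

end Poly

/-- A winning strategy of the first player, with memory states `S`. -/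
structure Strat (G : Type u) [Group G] (S : Type w) where
  val : S → Set G
  Γ : S → Subgroup G
  L : S → Subgroup G
  N : S → Bool → Subgroup G
  step : S → S → Prop
  hL : ∀ s, NormIn (L s) (Γ s)
  hN : ∀ s b, NormIn (N s b) (Γ s)
  subL : ∀ s, val s ⊆ L s
  cover : ∀ s, val s ⊆ (N s false ⊔ N s true : Subgroup G)
  next : ∀ s b (A : Set G), A.Finite → A ⊆ (⁅L s, N s b⁆ : Subgroup G) →
    ∃ s', step s s' ∧ val s' = A
  null : ∀ path : ℕ → S, (∀ n, step (path n) (path (n + 1))) → Null fun n => val (path n)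

variable {G : Type u} [Group G] {G' : Type v} [Group G'] {S : Type w}

theorem exists_finite_lift {α β : Type*} (f : α → β) {M : Set α} {A : Set β} (hA : A.Finite)
    (h : A ⊆ f '' M) : ∃ B : Set α, B.Finite ∧ B ⊆ M ∧ f '' B = A := by
  obtain ⟨B, h1, h2, h3⟩ := hA.exists_subset_finite_image_eq h
  exact ⟨B, h2, h1, h3⟩

/-- The image of a strategy under a homomorphism. -/
def Strat.map (σ : Strat G S) (f : G →* G') : Strat G' S where
  val s := f '' σ.val s
  Γ s := (σ.Γ s).map f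
  L s := (σ.L s).map f
  N s b := (σ.N s b).map f
  step := σ.step
  hL s := (σ.hL s).map f
  hN s b := (σ.hN s b).map f
  subL s := image_mono (σ.subL s)
  cover s := by
    rw [← Subgroup.map_sup]
    exact image_mono (σ.cover s)
  next s b A hA h := by
    rw [← Subgroup.map_commutator] at h
    obtain ⟨B, h1, h2, h3⟩ := exists_finite_lift f hA h
    obtain ⟨s', h4, h5⟩ := σ.next s b B h1 h2
    exact ⟨s', h4, by rw [h5, h3]⟩
  null path h := (σ.null path h).map f

/-- The first player wins from every finite subset of `H`. -/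
def KS (G : Type u) [Group G] (H : Subgroup G) : Prop :=
  ∃ (S : Type u) (σ : Strat G S), ∀ A : Set G, A.Finite → A ⊆ H → ∃ s, σ.val s = A

/-- The class. -/
def K (G : Type u) [Group G] : Prop := KS G ⊤

theorem KS.map {G' : Type u} [Group G'] {H : Subgroup G} (h : KS G H) (f : G →* G') :
    KS G' (H.map f) := by
  obtain ⟨S, σ, hσ⟩ := h
  refine ⟨S, σ.map f, fun A hA hAH => ?_⟩
  obtain ⟨B, h1, h2, h3⟩ := exists_finite_lift f hA hAH
  obtain ⟨s, hs⟩ := hσ B h1 h2
  exact ⟨s, by rw [← h3, ← hs]; rfl⟩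

theorem K.image {G' : Type u} [Group G'] (h : K G) (f : G →* G') (hf : Function.Surjective f) :
    K G' := by
  have := KS.map h f
  rwa [Subgroup.map_top_of_surjective f hf] at this

theorem K.ks {N : Subgroup G} (h : K N) : KS G N := by
  have := KS.map h N.subtype
  rwa [← MonoidHom.range_eq_map, Subgroup.range_subtype] at this

theorem K.of_comm (hc : ∀ a b : G, a * b = b * a) : K G := by
  refine ⟨Set G,
    { val := id
      Γ := fun _ => ⊤
      L := fun _ => ⊤
      N := fun _ _ => ⊤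
      step := fun _ A => A ⊆ (⊥ : Subgroup G)
      hL := fun _ => NormIn.of_normal inferInstance
      hN := fun _ _ => NormIn.of_normal inferInstance
      subL := fun _ => subset_univ _
      cover := fun _ => by simp
      next := fun s b A _ h => ⟨A, h.trans ?_, rfl⟩
      null := fun path h => Null.of_tail ?_ }, fun A _ _ => ⟨A, rfl⟩⟩
  · refine Subgroup.commutator_le.2 fun a _ b _ => ?_
    rw [Subgroup.mem_bot, commutatorElement_def, hc a b]
    group
  · intro φ hφ
    refine ⟨fun _ => 1, fun n => ?_⟩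
    exact (Subgroup.mem_bot.1 ((hφ n).mem_normal inferInstance (h n) 1)).symm

theorem KS.sup {N₁ N₂ : Subgroup G} (h₁ : N₁.Normal) (h₂ : N₂.Normal) (k₁ : KS G N₁)
    (k₂ : KS G N₂) : KS G (N₁ ⊔ N₂) := by
  obtain ⟨S₁, σ₁, hσ₁⟩ := k₁
  obtain ⟨S₂, σ₂, hσ₂⟩ := k₂
  let R := {A : Set G // A ⊆ (N₁ ⊔ N₂ : Subgroup G)}
  let step : R ⊕ S₁ ⊕ S₂ → R ⊕ S₁ ⊕ S₂ → Prop := fun x y => match x, y with
    | Sum.inl _, Sum.inr _ => True
    | Sum.inr (Sum.inl s), Sum.inr (Sum.inl s') => σ₁.step s s'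
    | Sum.inr (Sum.inr s), Sum.inr (Sum.inr s') => σ₂.step s s'
    | _, _ => False
  let val : R ⊕ S₁ ⊕ S₂ → Set G := Sum.elim (fun A => A.1) (Sum.elim σ₁.val σ₂.val)
  have key : ∀ path : ℕ → R ⊕ S₁ ⊕ S₂, (∀ n, step (path n) (path (n + 1))) →
      (∃ t, path 0 = Sum.inr t) → Null fun n => val (path n) := by
    rintro path h ⟨t, ht⟩
    rcases t with t | t
    · have h1 : ∀ n, ∃ s, path n = Sum.inr (Sum.inl s) := by
        intro n
        induction n with
        | zero => exact ⟨t, ht⟩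
        | succ n ih =>
          obtain ⟨s, hs⟩ := ih
          have h2 := h n
          rw [hs] at h2
          rcases hp : path (n + 1) with x | x | x
          · rw [hp] at h2; exact h2.elim
          · exact ⟨x, rfl⟩
          · rw [hp] at h2; exact h2.elim
      choose p hp using h1
      have h3 := σ₁.null p fun n => by
        have := h n
        rw [hp, hp] at this
        exact this
      simpa only [hp, val, Sum.elim_inr, Sum.elim_inl] using h3
    · have h1 : ∀ n, ∃ s, path n = Sum.inr (Sum.inr s) := by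
        intro n
        induction n with
        | zero => exact ⟨t, ht⟩
        | succ n ih =>
          obtain ⟨s, hs⟩ := ih
          have h2 := h n
          rw [hs] at h2
          rcases hp : path (n + 1) with x | x | x
          · rw [hp] at h2; exact h2.elim
          · rw [hp] at h2; exact h2.elim
          · exact ⟨x, rfl⟩
      choose p hp using h1
      have h3 := σ₂.null p fun n => by
        have := h n
        rw [hp, hp] at this
        exact this
      simpa only [hp, val, Sum.elim_inr, Sum.elim_inl] using h3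
  refine ⟨R ⊕ S₁ ⊕ S₂,
    { val := val
      Γ := Sum.elim (fun _ => ⊤) (Sum.elim σ₁.Γ σ₂.Γ)
      L := Sum.elim (fun _ => ⊤) (Sum.elim σ₁.L σ₂.L)
      N := Sum.elim (fun _ b => if b then N₂ else N₁) (Sum.elim σ₁.N σ₂.N)
      step := step
      hL := ?_
      hN := ?_
      subL := ?_
      cover := ?_
      next := ?_
      null := ?_ }, fun A _ hA => ⟨Sum.inl ⟨A, hA⟩, rfl⟩⟩
  · rintro (s | s | s)
    · exact NormIn.of_normal (inferInstance : (⊤ : Subgroup G).Normal)
    · exact σ₁.hL s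
    · exact σ₂.hL s
  · rintro (s | s | s) b
    · cases b
      · exact NormIn.of_normal h₁
      · exact NormIn.of_normal h₂
    · exact σ₁.hN s b
    · exact σ₂.hN s b
  · rintro (s | s | s)
    · exact subset_univ _
    · exact σ₁.subL s
    · exact σ₂.subL s
  · rintro (s | s | s)
    · exact s.2
    · exact σ₁.cover s
    · exact σ₂.cover s
  · rintro (s | s | s) b A hA h
    · cases b
      · obtain ⟨s', hs'⟩ := hσ₁ A hA (h.trans ((NormIn.of_normal h₁).comm_le_right le_top))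
        exact ⟨Sum.inr (Sum.inl s'), trivial, hs'⟩
      · obtain ⟨s', hs'⟩ := hσ₂ A hA (h.trans ((NormIn.of_normal h₂).comm_le_right le_top))
        exact ⟨Sum.inr (Sum.inr s'), trivial, hs'⟩
    · obtain ⟨s', h1, h2⟩ := σ₁.next s b A hA h
      exact ⟨Sum.inr (Sum.inl s'), h1, h2⟩
    · obtain ⟨s', h1, h2⟩ := σ₂.next s b A hA h
      exact ⟨Sum.inr (Sum.inr s'), h1, h2⟩
  · intro path h
    refine Null.of_tail (key (fun n => path (n + 1)) (fun n => h (n + 1)) ?_)
    have h0 := h 0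
    rcases hp : path (0 + 1) with x | x
    · rw [hp] at h0
      rcases hq : path 0 with y | y | y <;> rw [hq] at h0 <;> exact h0.elim
    · exact ⟨x, rfl⟩

theorem K.of_directed (h : ∀ A : Set G, A.Finite → ∃ N : Subgroup G, KS G N ∧ A ⊆ N) : K G := by
  choose S σ hσ using fun N : {N : Subgroup G // KS G N} => N.2
  refine ⟨Σ N, S N,
    { val := fun x => (σ x.1).val x.2
      Γ := fun x => (σ x.1).Γ x.2
      L := fun x => (σ x.1).L x.2
      N := fun x => (σ x.1).N x.2
      step := fun x y => ∃ s' : S x.1, (σ x.1).step x.2 s' ∧ y = ⟨x.1, s'⟩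
      hL := fun x => (σ x.1).hL x.2
      hN := fun x => (σ x.1).hN x.2
      subL := fun x => (σ x.1).subL x.2
      cover := fun x => (σ x.1).cover x.2
      next := fun x b A hA hsub => ?_
      null := fun path hp => ?_ }, fun A hA _ => ?_⟩
  · obtain ⟨s', h1, h2⟩ := (σ x.1).next x.2 b A hA hsub
    exact ⟨⟨x.1, s'⟩, ⟨s', h1, rfl⟩, h2⟩
  · have h1 : ∀ n, ∃ s : S (path 0).1, path n = ⟨(path 0).1, s⟩ := by
      intro n
      induction n with
      | zero => exact ⟨(path 0).2, rfl⟩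
      | succ n ih =>
        obtain ⟨s, hs⟩ := ih
        have h2 := hp n
        rw [hs] at h2
        obtain ⟨s', -, h3⟩ := h2
        exact ⟨s', h3⟩
    choose p hpp using h1
    have h3 := (σ (path 0).1).null p fun n => by
      have h2 := hp n
      rw [hpp n, hpp (n + 1)] at h2
      obtain ⟨s', h4, h5⟩ := h2
      rw [eq_of_heq (Sigma.mk.inj h5).2]
      exact h4
    have h4 : (fun n => (σ (path n).1).val (path n).2) = fun n => (σ (path 0).1).val (p n) :=
      funext fun n => by rw [hpp n]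
    rw [h4]
    exact h3
  · obtain ⟨N, hN, hAN⟩ := h A hA
    obtain ⟨s, hs⟩ := hσ ⟨N, hN⟩ A hA hAN
    exact ⟨⟨⟨N, hN⟩, s⟩, hs⟩

theorem K.join (h : sSup {N : Subgroup G | N.Normal ∧ K N} = ⊤) : K G := by
  have hbot : KS G ⊥ := K.ks (K.of_comm fun a b => Subsingleton.elim _ _)
  have h1 : ∀ x : G, ∃ N : Subgroup G, N.Normal ∧ KS G N ∧ x ∈ N := by
    intro x
    have hx : x ∈ sSup {N : Subgroup G | N.Normal ∧ KS G N} := by
      have : sSup {N : Subgroup G | N.Normal ∧ K N} ≤ sSup {N : Subgroup G | N.Normal ∧ KS G N} :=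
        sSup_le_sSup fun N hN => ⟨hN.1, hN.2.ks⟩
      exact this (h ▸ Subgroup.mem_top x)
    have hne : {N : Subgroup G | N.Normal ∧ KS G N}.Nonempty := ⟨⊥, inferInstance, hbot⟩
    rw [Subgroup.mem_sSup_of_directedOn hne] at hx
    · obtain ⟨N, hN, hxN⟩ := hx
      exact ⟨N, hN.1, hN.2, hxN⟩
    · intro N hN M hM
      have := hN.1
      have := hM.1
      exact ⟨N ⊔ M, ⟨inferInstance, KS.sup hN.1 hM.1 hN.2 hM.2⟩, le_sup_left, le_sup_right⟩
  have h2 : ∀ A : Set G, A.Finite → ∃ N : Subgroup G, N.Normal ∧ KS G N ∧ A ⊆ N := by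
    intro A hA
    induction A, hA using Set.Finite.induction_on with
    | empty => exact ⟨⊥, inferInstance, hbot, empty_subset _⟩
    | @insert x A _ _ ih =>
      obtain ⟨N, hN, kN, hAN⟩ := ih
      obtain ⟨M, hM, kM, hx⟩ := h1 x
      exact ⟨N ⊔ M, inferInstance, KS.sup hN hM kN kM,
        insert_subset ((le_sup_right : M ≤ N ⊔ M) hx) (hAN.trans (le_sup_left : N ≤ N ⊔ M))⟩
  exact K.of_directed fun A hA => by
    obtain ⟨N, -, h3, h4⟩ := h2 A hA
    exact ⟨N, h3, h4⟩

theorem K.pi {ι : Type u} {H : ι → Type u} [∀ i, Group (H i)] (h : ∀ i, K (H i)) :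
    K (∀ i, H i) := by
  choose S σ hσ using h
  have hn : ∀ (A B : ∀ i, Subgroup (H i)), (∀ i, NormIn (A i) (B i)) →
      NormIn (Subgroup.pi univ A) (Subgroup.pi univ B) := fun A B hAB =>
    ⟨fun x hx i hi => (hAB i).1 (hx i hi),
      fun g hg x hx i hi => (hAB i).2 _ (hg i hi) _ (hx i hi)⟩
  refine ⟨{x : Set (∀ i, H i) × (∀ i, S i) //
      ∀ i, (σ i).val (x.2 i) = Pi.evalMonoidHom H i '' x.1},
    { val := fun x => x.1.1
      Γ := fun x => Subgroup.pi univ fun i => (σ i).Γ (x.1.2 i)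
      L := fun x => Subgroup.pi univ fun i => (σ i).L (x.1.2 i)
      N := fun x b => Subgroup.pi univ fun i => (σ i).N (x.1.2 i) b
      step := fun x y => ∀ i, (σ i).step (x.1.2 i) (y.1.2 i)
      hL := fun x => hn _ _ fun i => (σ i).hL _
      hN := fun x b => hn _ _ fun i => (σ i).hN _ b
      subL := fun x a ha i _ => (σ i).subL _ (x.2 i ▸ mem_image_of_mem _ ha)
      cover := fun x a ha => ?_
      next := fun x b A hA hsub => ?_
      null := fun path hp => Null.pi fun i => ?_ }, fun A hA _ => ?_⟩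
  · have h1 : ∀ i, ∃ p ∈ (σ i).N (x.1.2 i) false, ∃ q ∈ (σ i).N (x.1.2 i) true, a i = p * q :=
      fun i => ((σ i).hN _ false).exists_mul ((σ i).hN _ true)
        ((σ i).cover _ (x.2 i ▸ mem_image_of_mem _ ha))
    choose p hp q hq e using h1
    have : a = p * q := funext e
    rw [this]
    exact Subgroup.mul_mem_sup (fun i _ => hp i) (fun i _ => hq i)
  · have h1 : ∀ i, ∃ s', (σ i).step (x.1.2 i) s' ∧ (σ i).val s' = Pi.evalMonoidHom H i '' A := by
      intro i
      refine (σ i).next _ b _ (hA.image _) ?_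
      rintro _ ⟨a, ha, rfl⟩
      exact Subgroup.commutator_pi_pi_le _ _ (hsub ha) i (mem_univ i)
    choose s' h2 h3 using h1
    exact ⟨⟨(A, s'), h3⟩, h2, rfl⟩
  · have := (σ i).null (fun n => (path n).1.2 i) fun n => hp n i
    simpa only [fun n => (path n).2 i] using this
  · choose s hs using fun i => hσ i (Pi.evalMonoidHom H i '' A) (hA.image _) (subset_univ _)
    exact ⟨⟨(A, s), hs⟩, rfl⟩

theorem K.normal (h : K G) {N : Subgroup G} (hN : N.Normal) : K N := by
  obtain ⟨S, σ, hσ⟩ := h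
  let S' := {x : S × Set N × Bool // σ.val x.1 ⊆ N ∧
    (x.2.2 = false → N.subtype '' x.2.1 = σ.val x.1) ∧
    (x.2.2 = true → N.subtype '' x.2.1 ⊆
      (⁅Subgroup.closure (σ.val x.1), Subgroup.closure (σ.val x.1)⁆ : Subgroup G))}
  let step : S' → S' → Prop := fun x y =>
    (x.1.2.2 = false ∧ y.1.2.2 = true ∧ y.1.1 = x.1.1) ∨
    (x.1.2.2 = true ∧ y.1.2.2 = false ∧ σ.step x.1.1 y.1.1)
  have hcl : ∀ x : S', Subgroup.closure (σ.val x.1.1) ≤ σ.L x.1.1 ⊓ N := fun x =>
    (Subgroup.closure_le _).2 fun a ha => ⟨σ.subL _ ha, x.2.1 ha⟩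
  have hself : ∀ C : Subgroup G, NormIn C C := fun C =>
    ⟨le_rfl, fun g hg x hx => C.mul_mem (C.mul_mem hg hx) (C.inv_mem hg)⟩
  have key : ∀ path : ℕ → S', (∀ n, step (path n) (path (n + 1))) → (path 0).1.2.2 = false →
      Null fun n => (path n).1.2.1 := by
    intro path h h0
    have h1 : ∀ k, (path (2 * k)).1.2.2 = false := by
      intro k
      induction k with
      | zero => exact h0
      | succ k ih =>
        rcases h (2 * k) with ⟨-, h2, -⟩ | ⟨h2, -, -⟩
        · rcases h (2 * k + 1) with ⟨h3, -, -⟩ | ⟨-, h3, -⟩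
          · rw [h2] at h3; cases h3
          · exact h3
        · rw [ih] at h2; cases h2
    have h2 : ∀ k, (path (2 * k + 1)).1.2.2 = true ∧ (path (2 * k + 1)).1.1 = (path (2 * k)).1.1 := by
      intro k
      rcases h (2 * k) with ⟨-, h2, h3⟩ | ⟨h2, -, -⟩
      · exact ⟨h2, h3⟩
      · rw [h1 k] at h2; cases h2
    have h3 := σ.null (fun k => (path (2 * k)).1.1) fun k => by
      rcases h (2 * k + 1) with ⟨h3, -, -⟩ | ⟨-, -, h3⟩
      · rw [(h2 k).1] at h3; cases h3
      · rw [(h2 k).2] at h3; exact h3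
    refine Null.of_normal hN (h3.of_two (fun k => ?_) fun k => ?_)
    · rw [(path (2 * k)).2.2.1 (h1 k)]
      exact Subgroup.subset_closure
    · refine ((path (2 * k + 1)).2.2.2 (h2 k).1).trans ?_
      rw [(h2 k).2]
      exact (hself _).comm_le_right le_rfl
  refine ⟨S',
    { val := fun x => x.1.2.1
      Γ := fun x => (if x.1.2.2 then σ.Γ x.1.1 else Subgroup.closure (σ.val x.1.1)).comap N.subtype
      L := fun x => (if x.1.2.2 then σ.L x.1.1 ⊓ N
        else Subgroup.closure (σ.val x.1.1)).comap N.subtype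
      N := fun x b => (if x.1.2.2 then ⁅σ.L x.1.1 ⊓ N, σ.N x.1.1 b⁆
        else Subgroup.closure (σ.val x.1.1)).comap N.subtype
      step := step
      hL := fun x => NormIn.comap _ ?_
      hN := fun x b => NormIn.comap _ ?_
      subL := fun x a ha => ?_
      cover := fun x a ha => ?_
      next := fun x b A hA hsub => ?_
      null := fun path hp => ?_ }, fun A hA _ => ?_⟩
  · split_ifs
    · exact (σ.hL _).inf hN
    · exact hself _
  · split_ifs
    · exact ((σ.hL _).inf hN).comm (σ.hN _ b)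
    · exact hself _
  · cases hb : x.1.2.2
    · simp only [Bool.false_eq_true, if_false]
      exact Subgroup.subset_closure (x.2.2.1 hb ▸ mem_image_of_mem _ ha)
    · simp only [if_true]
      exact hcl x ((hself _).comm_le_right le_rfl (x.2.2.2 hb (mem_image_of_mem _ ha)))
  · cases hb : x.1.2.2
    · simp only [Bool.false_eq_true, if_false, sup_idem]
      exact Subgroup.subset_closure (x.2.2.1 hb ▸ mem_image_of_mem _ ha)
    · simp only [if_true]
      have hL := (σ.hL x.1.1).inf hN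
      have h1 : (a : G) ∈ ⁅σ.L x.1.1 ⊓ N, σ.N x.1.1 false⁆ ⊔ ⁅σ.L x.1.1 ⊓ N, σ.N x.1.1 true⁆ :=
        hL.comm_sup (σ.hN _ false) (σ.hN _ true) (Subgroup.commutator_mono (hcl x)
          ((Subgroup.closure_le _).2 (σ.cover _)) (x.2.2.2 hb (mem_image_of_mem _ ha)))
      obtain ⟨p, hp, q, hq, e⟩ := (hL.comm (σ.hN _ false)).exists_mul (hL.comm (σ.hN _ true)) h1
      have hpN : p ∈ N := (hL.comm_le_left (σ.hN _ false).1 hp).2
      have hqN : q ∈ N := (hL.comm_le_left (σ.hN _ true).1 hq).2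
      have e' : a = ⟨p, hpN⟩ * ⟨q, hqN⟩ := Subtype.ext e
      rw [e']
      exact Subgroup.mul_mem_sup hp hq
  · have h1 : ∀ C D : Subgroup G, A ⊆ (⁅C.comap N.subtype, D.comap N.subtype⁆ : Subgroup N) →
        N.subtype '' A ⊆ (⁅C, D⁆ : Subgroup G) := by
      rintro C D hCD _ ⟨a, ha, rfl⟩
      have h2 : N.subtype a ∈ (⁅C.comap N.subtype, D.comap N.subtype⁆ : Subgroup N).map N.subtype :=
        ⟨a, hCD ha, rfl⟩
      rw [Subgroup.map_commutator] at h2
      exact Subgroup.commutator_mono (Subgroup.map_comap_le _ _) (Subgroup.map_comap_le _ _) h2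
    have h2 := h1 _ _ hsub
    cases hb : x.1.2.2
    · simp only [hb, Bool.false_eq_true, if_false] at h2
      exact ⟨⟨(x.1.1, A, true), x.2.1, fun h => (by cases h), fun _ => h2⟩,
        Or.inl ⟨hb, rfl, rfl⟩, rfl⟩
    · simp only [hb, if_true] at h2
      have hL := (σ.hL x.1.1).inf hN
      have h3 : N.subtype '' A ⊆ (⁅σ.L x.1.1, σ.N x.1.1 b⁆ : Subgroup G) :=
        h2.trans (((hL.comm (σ.hN _ b)).comm_le_right hL.1).trans
          (Subgroup.commutator_mono inf_le_left le_rfl))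
      obtain ⟨s', h4, h5⟩ := σ.next _ b _ (hA.image _) h3
      refine ⟨⟨(s', A, false), ?_, fun _ => h5.symm, fun h => (by cases h)⟩,
        Or.inr ⟨hb, rfl, h4⟩, rfl⟩
      change σ.val s' ⊆ N
      rw [h5]
      rintro _ ⟨a, -, rfl⟩
      exact a.2
  · cases hb : (path 0).1.2.2
    · exact key path hp hb
    · refine Null.of_tail (key (fun n => path (n + 1)) (fun n => hp (n + 1)) ?_)
      rcases hp 0 with ⟨h1, -, -⟩ | ⟨-, h1, -⟩
      · rw [hb] at h1; cases h1
      · exact h1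
  · obtain ⟨s, hs⟩ := hσ (N.subtype '' A) (hA.image _) (subset_univ _)
    refine ⟨⟨(s, A, false), ?_, fun _ => hs.symm, fun h => (by cases h)⟩, rfl⟩
    change σ.val s ⊆ N
    rw [hs]
    rintro _ ⟨a, -, rfl⟩
    exact a.2

end Pool.Agent.H384Z.Rad
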