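import Pool.Agent.H384Z.Rad.Game

/-! A finitely generated perfect group of tree automorphisms that is not in the class. -/

universe u v w

namespace Pool.Agent.H384Z.Rad

open Set Equiv
open scoped commutatorElement

/-- The second player wins along a suitable chain of perfect subgroups. -/
theorem no_strat {G : Type u} [Group G] (A : ℕ → Set G) (hfin : ∀ n, (A n).Finite)
    (hle : ∀ n, Subgroup.closure (A (n + 1)) ≤ Subgroup.closure (A n))
    (hperf : ∀ n, Subgroup.closure (A n) ≤ ⁅Subgroup.closure (A n), Subgroup.closure (A n)⁆)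
    (F : ℕ → Subgroup G) (hF : ∀ n, ¬ Subgroup.closure (A n) ≤ F (n + 1))
    (hc : ∀ n, ∀ y ∉ F n, ∀ k ∈ Subgroup.closure (A n), ∀ k' ∈ Subgroup.closure (A n),
      Commute (y * k * y⁻¹) k')
    (hnull : ¬ Null A) {S : Type w} (σ : Strat G S) (s : S) : σ.val s ≠ A 0 := by
  intro hs
  have key : ∀ n (t : S), σ.val t = A n → ∃ t', σ.step t t' ∧ σ.val t' = A (n + 1) := by
    intro n t ht
    have hL : Subgroup.closure (A n) ≤ σ.L t := (Subgroup.closure_le _).2 (ht ▸ σ.subL t)
    have h1 : ∃ b, ¬ σ.N t b ≤ F (n + 1) := by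
      by_contra hcon
      push Not at hcon
      apply hF n
      exact ((Subgroup.closure_le _).2 (ht ▸ σ.cover t)).trans (sup_le (hcon _) (hcon _))
    obtain ⟨b, hb⟩ := h1
    obtain ⟨y, hy, hyF⟩ := SetLike.not_le_iff_exists.1 hb
    refine σ.next t b _ (hfin _) (Subgroup.subset_closure.trans ((hperf _).trans ?_))
    refine Subgroup.commutator_le.2 fun k₂ h₂ k₁ h₁ => ?_
    have hu : k₁ * (y * k₁⁻¹ * y⁻¹) ∈ σ.N t b := by
      have := (σ.N t b).mul_mem ((σ.hN t b).2 k₁ ((σ.hL t).1 (hL (hle n h₁))) y hy)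
        ((σ.N t b).inv_mem hy)
      simpa only [mul_assoc] using this
    have h3 := hc (n + 1) y hyF k₁⁻¹ (Subgroup.inv_mem _ h₁) k₂ h₂
    have e : ⁅k₂, k₁⁆ = ⁅k₂, k₁ * (y * k₁⁻¹ * y⁻¹)⁆ := by
      generalize y * k₁⁻¹ * y⁻¹ = c at h3
      have h4 : c * k₂⁻¹ = k₂⁻¹ * c := h3.inv_right.eq
      simp only [commutatorElement_def, mul_inv_rev]
      calc k₂ * k₁ * k₂⁻¹ * k₁⁻¹ = k₂ * k₁ * (k₂⁻¹ * c) * c⁻¹ * k₁⁻¹ := by group
        _ = k₂ * (k₁ * c) * k₂⁻¹ * (c⁻¹ * k₁⁻¹) := by rw [← h4]; group
    rw [e]
    exact Subgroup.commutator_mem_commutator (hL (hle n h₂)) hu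
  choose nx h1 h2 using key
  let p : ∀ n, {t : S // σ.val t = A n} := fun n =>
    Nat.rec ⟨s, hs⟩ (fun n t => ⟨nx n t.1 t.2, h2 n t.1 t.2⟩) n
  apply hnull
  have := σ.null (fun n => (p n).1) fun n => h1 n (p n).1 (p n).2
  simpa only [fun n => (p n).2] using this

/-- The boundary of the tree. -/
abbrev Om : Type := ℕ → Fin 5

/-- Prepend a letter. -/
def cons (x : Fin 5) (ω : Om) : Om := fun n => Nat.casesOn n x ω

/-- Remove the first letter. -/
def tail (ω : Om) : Om := fun n => ω (n + 1)

@[simp] theorem cons_zero (x : Fin 5) (ω : Om) : cons x ω 0 = x := rfl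

@[simp] theorem cons_succ (x : Fin 5) (ω : Om) (n : ℕ) : cons x ω (n + 1) = ω n := rfl

@[simp] theorem tail_cons (x : Fin 5) (ω : Om) : tail (cons x ω) = ω := rfl

@[simp] theorem tail_apply (ω : Om) (n : ℕ) : tail ω n = ω (n + 1) := rfl

theorem cons_tail (ω : Om) : cons (ω 0) (tail ω) = ω := by
  funext n
  cases n <;> rfl

/-- Action below the first letter `i`. -/
def emb (i : Fin 5) : Perm Om →* Perm Om :=
  MonoidHom.toHomPerm
    { toFun := fun g ω => if ω 0 = i then cons i (g (tail ω)) else ω
      map_one' := by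
        funext ω
        change (if ω 0 = i then cons i (tail ω) else ω) = ω
        split_ifs with h
        · rw [← h, cons_tail]
        · rfl
      map_mul' := by
        intro g h
        funext ω
        change (if ω 0 = i then cons i (g (h (tail ω))) else ω) =
          (fun ω => if ω 0 = i then cons i (g (tail ω)) else ω)
            (if ω 0 = i then cons i (h (tail ω)) else ω)
        by_cases hω : ω 0 = i <;> simp [hω] }

theorem emb_apply (i : Fin 5) (g : Perm Om) (ω : Om) :
    emb i g ω = if ω 0 = i then cons i (g (tail ω)) else ω := rfl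

/-- Action on the first letter. -/
def rt : Perm (Fin 5) →* Perm Om :=
  MonoidHom.toHomPerm
    { toFun := fun s ω => cons (s (ω 0)) (tail ω)
      map_one' := funext fun ω => cons_tail ω
      map_mul' := fun _ _ => rfl }

theorem rt_apply (s : Perm (Fin 5)) (ω : Om) : rt s ω = cons (s (ω 0)) (tail ω) := rfl

/-- Position `j` follows a block of zeros and a one. -/
def Cond (ω : Om) (j : ℕ) : Prop := ∃ k, j = k + 1 ∧ ω k = 1 ∧ ∀ i < k, ω i = 0

open Classical in
/-- The directed maps. -/
noncomputable def dirFun (s : Perm (Fin 5)) (ω : Om) : Om :=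
  fun j => if Cond ω j then s (ω j) else ω j

theorem cond_congr {ω ω' : Om} {j : ℕ} (h : ∀ i < j, ω i = ω' i) (hc : Cond ω j) : Cond ω' j := by
  obtain ⟨k, rfl, h1, h2⟩ := hc
  exact ⟨k, rfl, by rw [← h k (by omega), h1], fun i hi => by rw [← h i (by omega), h2 i hi]⟩

theorem cond_dirFun (s : Perm (Fin 5)) (ω : Om) (j : ℕ) : Cond (dirFun s ω) j ↔ Cond ω j := by
  constructor
  · rintro ⟨k, rfl, h1, h2⟩
    have h3 : ∀ i, i < k + 1 → dirFun s ω i = ω i := by
      intro i
      induction i using Nat.strong_induction_on with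
      | _ i ih =>
        intro hi
        refine if_neg ?_
        rintro ⟨k', rfl, h4, -⟩
        have := h2 k' (by omega)
        rw [ih k' (by omega) (by omega), h4] at this
        exact absurd this (by decide)
    exact cond_congr h3 ⟨k, rfl, h1, h2⟩
  · rintro ⟨k, rfl, h1, h2⟩
    refine cond_congr (fun i hi => (if_neg ?_).symm) ⟨k, rfl, h1, h2⟩
    rintro ⟨k', rfl, h4, -⟩
    have := h2 k' (by omega)
    rw [h4] at this
    exact absurd this (by decide)

/-- The directed automorphisms. -/
noncomputable def dir : Perm (Fin 5) →* Perm Om :=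
  MonoidHom.toHomPerm
    { toFun := dirFun
      map_one' := by
        funext ω j
        change dirFun 1 ω j = ω j
        simp [dirFun]
      map_mul' := by
        intro s t
        funext ω j
        change dirFun (s * t) ω j = dirFun s (dirFun t ω) j
        by_cases h : Cond ω j
        · rw [dirFun, dirFun, if_pos h, if_pos ((cond_dirFun t ω j).2 h), dirFun, if_pos h]
          rfl
        · rw [dirFun, dirFun, if_neg h, if_neg (mt (cond_dirFun t ω j).1 h), dirFun, if_neg h] }

theorem dir_apply (s : Perm (Fin 5)) (ω : Om) : dir s ω = dirFun s ω := rfl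

theorem dir_eq (s : Perm (Fin 5)) : dir s = emb 0 (dir s) * emb 1 (rt s) := by
  ext ω j
  rw [Perm.mul_apply, emb_apply 1, dir_apply]
  by_cases h1 : ω 0 = 1
  · rw [if_pos h1, emb_apply, if_neg (by simp), rt_apply]
    congr 1
    rcases j with _ | _ | j
    · rw [dirFun, if_neg (by rintro ⟨k, h, -⟩; omega), h1]; rfl
    · rw [dirFun, if_pos ⟨0, rfl, h1, fun i hi => by omega⟩]; rfl
    · rw [dirFun, if_neg]
      · rfl
      · rintro ⟨k, h, -, h2⟩
        have := h2 0 (by omega)
        rw [h1] at this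
        exact absurd this (by decide)
  · rw [if_neg h1, emb_apply]
    by_cases h0 : ω 0 = 0
    · rw [if_pos h0, dir_apply]
      congr 1
      rcases j with _ | j
      · rw [dirFun, if_neg (by rintro ⟨k, h, -⟩; omega), h0]; rfl
      · have hiff : Cond ω (j + 1) ↔ Cond (tail ω) j := by
          constructor
          · rintro ⟨k, h, h2, h3⟩
            rcases k with _ | k
            · exact absurd h2 h1
            · exact ⟨k, by omega, h2, fun i hi => h3 (i + 1) (by omega)⟩
          · rintro ⟨k, h, h2, h3⟩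
            refine ⟨k + 1, by omega, h2, fun i hi => ?_⟩
            rcases i with _ | i
            · exact h0
            · exact h3 i (by omega)
        rw [cons_succ, dirFun, dirFun]
        by_cases hc : Cond ω (j + 1)
        · rw [if_pos hc, if_pos (hiff.1 hc)]; rfl
        · rw [if_neg hc, if_neg (mt hiff.2 hc)]; rfl
    · rw [if_neg h0, dirFun, if_neg]
      rintro ⟨k, -, h2, h3⟩
      rcases k with _ | k
      · exact h1 h2
      · exact h0 (h3 0 (by omega))

theorem emb_commute {i j : Fin 5} (h : i ≠ j) (g g' : Perm Om) : Commute (emb i g) (emb j g') := by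
  apply Perm.Disjoint.commute
  intro ω
  by_cases hi : ω 0 = i
  · right
    rw [emb_apply, if_neg (hi ▸ h)]
  · left
    rw [emb_apply, if_neg hi]

theorem rt_conj (s : Perm (Fin 5)) (i : Fin 5) (g : Perm Om) :
    rt s * emb i g * (rt s)⁻¹ = emb (s i) g := by
  rw [mul_inv_eq_iff_eq_mul]
  refine Perm.ext fun ω => ?_
  rw [Perm.mul_apply, Perm.mul_apply, emb_apply, emb_apply, rt_apply s ω]
  by_cases h : ω 0 = i
  · simp [h, rt_apply]
  · simp [h, rt_apply]

/-- The generators. -/
def gens : Set (Perm Om) :=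
  rt '' (alternatingGroup (Fin 5)) ∪ dir '' (alternatingGroup (Fin 5))

/-- The group. -/
def TT : Subgroup (Perm Om) := Subgroup.closure gens

theorem gens_finite : gens.Finite := ((toFinite _).image _).union ((toFinite _).image _)

theorem alt_perfect : alternatingGroup (Fin 5) ≤
    ⁅alternatingGroup (Fin 5), alternatingGroup (Fin 5)⁆ := by
  have h1 : commutator (alternatingGroup (Fin 5)) = ⊤ := by
    rcases (inferInstance : (commutator (alternatingGroup (Fin 5))).Normal).eq_bot_or_eq_top
      with h | h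
    · exfalso
      have h2 : ⁅(⟨swap 0 1 * swap 2 3, Perm.mem_alternatingGroup.2 (by decide)⟩ : alternatingGroup (Fin 5)),
          (⟨swap 0 2 * swap 3 4, Perm.mem_alternatingGroup.2 (by decide)⟩ : alternatingGroup (Fin 5))⁆ ∈
          commutator (alternatingGroup (Fin 5)) :=
        Subgroup.commutator_mem_commutator (Subgroup.mem_top _) (Subgroup.mem_top _)
      rw [h, Subgroup.mem_bot, commutatorElement_eq_one_iff_mul_comm] at h2
      have h3 := congrArg Subtype.val h2
      revert h3
      decide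
    · exact h
  have h2 := congrArg (Subgroup.map (alternatingGroup (Fin 5)).subtype) h1
  rw [commutator_def, Subgroup.map_commutator, ← MonoidHom.range_eq_map,
    Subgroup.range_subtype] at h2
  exact h2.ge

theorem rt_mem {s : Perm (Fin 5)} (hs : s ∈ alternatingGroup (Fin 5)) : rt s ∈ TT :=
  Subgroup.subset_closure (Or.inl ⟨s, hs, rfl⟩)

theorem dir_mem {s : Perm (Fin 5)} (hs : s ∈ alternatingGroup (Fin 5)) : dir s ∈ TT :=
  Subgroup.subset_closure (Or.inr ⟨s, hs, rfl⟩)

theorem TT_perfect : TT ≤ ⁅TT, TT⁆ := by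
  have key : ∀ f : Perm (Fin 5) →* Perm Om, (alternatingGroup (Fin 5)).map f ≤ TT →
      (alternatingGroup (Fin 5)).map f ≤ ⁅TT, TT⁆ := fun f hf =>
    (Subgroup.map_mono alt_perfect).trans (by
      rw [Subgroup.map_commutator]; exact Subgroup.commutator_mono hf hf)
  refine (Subgroup.closure_le _).2 (union_subset (key rt ?_) (key dir ?_))
  · rintro _ ⟨s, hs, rfl⟩
    exact rt_mem hs
  · rintro _ ⟨s, hs, rfl⟩
    exact dir_mem hs

/-- An even permutation fixing `1` and sending `0` to `2`. -/
def g0 : Perm (Fin 5) := swap 0 2 * swap 3 4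

/-- An even permutation exchanging `0` and `1`. -/
def h0 : Perm (Fin 5) := swap 0 1 * swap 3 4

theorem g0_mem : g0 ∈ alternatingGroup (Fin 5) := Perm.mem_alternatingGroup.2 (by decide)

theorem h0_mem : h0 ∈ alternatingGroup (Fin 5) := Perm.mem_alternatingGroup.2 (by decide)

theorem emb_rt_mem {s : Perm (Fin 5)} (hs : s ∈ alternatingGroup (Fin 5)) : emb 1 (rt s) ∈ TT := by
  have h1 : ⁅alternatingGroup (Fin 5), alternatingGroup (Fin 5)⁆ ≤
      TT.comap ((emb 1).comp rt) := by
    refine Subgroup.commutator_le.2 fun s hs t ht => ?_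
    have e1 : rt g0 * dir t * (rt g0)⁻¹ = emb 2 (dir t) * emb 1 (rt t) := by
      have a1 := rt_conj g0 0 (dir t)
      have a2 := rt_conj g0 1 (rt t)
      rw [show g0 0 = 2 by decide] at a1
      rw [show g0 1 = 1 by decide] at a2
      rw [← a1, ← a2]
      conv_lhs => rw [dir_eq t]
      group
    have e2 : ⁅dir s, rt g0 * dir t * (rt g0)⁻¹⁆ = ⁅emb 1 (rt s), emb 1 (rt t)⁆ := by
      rw [e1]
      conv_lhs => rw [dir_eq s]
      have c1 := emb_commute (show (0 : Fin 5) ≠ 1 by decide) (dir s) (rt s)
      have c2 := emb_commute (show (0 : Fin 5) ≠ 1 by decide) (dir s) (rt t)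
      have c3 := emb_commute (show (0 : Fin 5) ≠ 2 by decide) (dir s) (dir t)
      have c4 := emb_commute (show (2 : Fin 5) ≠ 1 by decide) (dir t) (rt s)
      have c5 := emb_commute (show (2 : Fin 5) ≠ 1 by decide) (dir t) (rt t)
      generalize emb 0 (dir s) = a at *
      generalize emb 2 (dir t) = b at *
      generalize emb 1 (rt s) = x at *
      generalize emb 1 (rt t) = y at *
      simp only [commutatorElement_def]
      have d1 : a * x * (b * y) = x * y * (a * b) := by
        calc a * x * (b * y) = x * a * (y * b) := by rw [c1.eq, c5.eq]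
          _ = x * (a * y) * b := by group
          _ = x * y * (a * b) := by rw [c2.eq]; group
      have d2 : b * y * (a * x) = y * x * (a * b) := by
        calc b * y * (a * x) = y * b * (x * a) := by rw [c1.eq, c5.eq]
          _ = y * (b * x) * a := by group
          _ = y * x * (b * a) := by rw [c4.eq]; group
          _ = y * x * (a * b) := by rw [c3.eq]
      calc a * x * (b * y) * (a * x)⁻¹ * (b * y)⁻¹
          = a * x * (b * y) * (b * y * (a * x))⁻¹ := by group
        _ = x * y * x⁻¹ * y⁻¹ := by rw [d1, d2]; group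
    rw [Subgroup.mem_comap, map_commutatorElement]
    change ⁅emb 1 (rt s), emb 1 (rt t)⁆ ∈ TT
    rw [← e2, commutatorElement_def]
    have m1 := dir_mem hs
    have m2 : rt g0 * dir t * (rt g0)⁻¹ ∈ TT :=
      TT.mul_mem (TT.mul_mem (rt_mem g0_mem) (dir_mem ht)) (TT.inv_mem (rt_mem g0_mem))
    exact TT.mul_mem (TT.mul_mem (TT.mul_mem m1 m2) (TT.inv_mem m1)) (TT.inv_mem m2)
  exact h1 (alt_perfect hs)

theorem emb_mem {g : Perm Om} (hg : g ∈ TT) : emb 1 g ∈ TT := by
  have : TT ≤ TT.comap (emb 1) := by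
    refine (Subgroup.closure_le _).2 (union_subset ?_ ?_)
    · rintro _ ⟨s, hs, rfl⟩
      exact emb_rt_mem hs
    · rintro _ ⟨s, hs, rfl⟩
      have a1 := rt_conj h0 0 (dir s)
      rw [show h0 0 = 1 by decide] at a1
      have a2 : emb 0 (dir s) = dir s * (emb 1 (rt s))⁻¹ := eq_mul_inv_of_mul_eq (dir_eq s).symm
      change emb 1 (dir s) ∈ TT
      rw [← a1, a2]
      exact TT.mul_mem (TT.mul_mem (rt_mem h0_mem)
        (TT.mul_mem (dir_mem hs) (TT.inv_mem (emb_rt_mem hs)))) (TT.inv_mem (rt_mem h0_mem))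
  exact this hg

/-- Tree automorphisms. -/
def WW : Subgroup (Perm Om) where
  carrier := {g | ∀ k ω ω', (∀ j < k, ω j = ω' j) ↔ ∀ j < k, g ω j = g ω' j}
  one_mem' := fun _ _ _ => Iff.rfl
  mul_mem' := fun {a b} ha hb k ω ω' => (hb k ω ω').trans (ha k (b ω) (b ω'))
  inv_mem' := fun {a} ha k ω ω' => by
    have := ha k (a⁻¹ ω) (a⁻¹ ω')
    simpa using this.symm

theorem mem_WW_of_hom (f : Perm (Fin 5) →* Perm Om)
    (h : ∀ s k ω ω', (∀ j < k, ω j = ω' j) → ∀ j < k, f s ω j = f s ω' j) (s : Perm (Fin 5)) :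
    f s ∈ WW := fun k ω ω' =>
  ⟨h s k ω ω', fun h1 => by simpa using h s⁻¹ k _ _ h1⟩

theorem TT_le : TT ≤ WW := by
  refine (Subgroup.closure_le _).2 (union_subset ?_ ?_)
  · rintro _ ⟨s, -, rfl⟩
    refine mem_WW_of_hom rt (fun s k ω ω' h j hj => ?_) s
    rcases j with _ | j
    · simp [rt_apply, h 0 hj]
    · simp [rt_apply, h _ hj]
  · rintro _ ⟨s, -, rfl⟩
    refine mem_WW_of_hom dir (fun s k ω ω' h j hj => ?_) s
    rw [dir_apply, dir_apply, dirFun, dirFun, h j hj]
    by_cases hc : Cond ω j
    · rw [if_pos hc, if_pos (cond_congr (fun i hi => h i (by omega)) hc)]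
    · rw [if_neg hc, if_neg fun hc' => hc (cond_congr (fun i hi => (h i (by omega)).symm) hc')]

/-- Action below the vertex with `n` ones. -/
def EE : ℕ → (Perm Om →* Perm Om)
  | 0 => MonoidHom.id _
  | n + 1 => (emb 1).comp (EE n)

theorem EE_succ (n : ℕ) (g : Perm Om) : EE (n + 1) g = EE n (emb 1 g) := by
  induction n with
  | zero => rfl
  | succ n ih => exact congrArg (emb 1) ih

theorem EE_mem (n : ℕ) {g : Perm Om} (hg : g ∈ TT) : EE n g ∈ TT := by
  induction n with
  | zero => exact hg
  | succ n ih => exact emb_mem ih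

theorem EE_fix (n : ℕ) (g : Perm Om) (ω : Om) (h : ¬ ∀ j < n, ω j = 1) : EE n g ω = ω := by
  induction n generalizing ω with
  | zero => exact absurd (fun j hj => by omega) h
  | succ n ih =>
    change emb 1 (EE n g) ω = ω
    rw [emb_apply]
    split_ifs with h1
    · rw [ih (tail ω), ← h1, cons_tail]
      intro h2
      apply h
      intro j hj
      rcases j with _ | j
      · exact h1
      · exact h2 j (by omega)
    · rfl

theorem EE_level (n : ℕ) (g : Perm Om) (ω : Om) : ∀ j < n, EE n g ω j = ω j := by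
  induction n generalizing ω with
  | zero => exact fun j hj => by omega
  | succ n ih =>
    intro j hj
    change emb 1 (EE n g) ω j = ω j
    rw [emb_apply]
    split_ifs with h1
    · rcases j with _ | j
      · exact h1.symm
      · exact ih (tail ω) j (by omega)
    · rfl

theorem EE_rt (n : ℕ) (s : Perm (Fin 5)) (ω : Om) (h : ∀ j < n, ω j = 1) (j : ℕ) :
    EE n (rt s) ω j = if j = n then s (ω n) else ω j := by
  induction n generalizing ω j with
  | zero =>
    change rt s ω j = _
    rcases j with _ | j <;> simp [rt_apply]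
  | succ n ih =>
    change emb 1 (EE n (rt s)) ω j = _
    rw [emb_apply, if_pos (h 0 (by omega))]
    rcases j with _ | j
    · simp [h 0 (by omega)]
    · rw [cons_succ, ih (tail ω) fun j hj => h (j + 1) (by omega)]
      simp

/-- The embedding of the group below the vertex with `n` ones. -/
def JJ (n : ℕ) : TT →* TT := ((EE n).comp TT.subtype).codRestrict TT fun g => EE_mem n g.2

/-- The generating sets. -/
def AA (n : ℕ) : Set TT := JJ n '' (Subtype.val ⁻¹' gens)

theorem closure_AA (n : ℕ) : Subgroup.closure (AA n) = (JJ n).range := by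
  rw [AA, ← MonoidHom.map_closure, MonoidHom.range_eq_map]
  congr 1
  exact Subgroup.closure_closure_coe_preimage

/-- The stabiliser of the vertex with `n` ones. -/
def FF (n : ℕ) : Subgroup TT where
  carrier := {y | ∀ j < n, (y : Perm Om) (fun _ => 1) j = 1}
  one_mem' := fun _ _ => rfl
  mul_mem' := fun {a b} ha hb j hj =>
    (((TT_le a.2) n ((b : Perm Om) fun _ => 1) fun _ => 1).1 hb j hj).trans (ha j hj)
  inv_mem' := fun {a} ha j hj => by
    have := ((TT_le (a⁻¹).2) n ((a : Perm Om) fun _ => 1) fun _ => 1).1 ha j hj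
    rw [← this]
    simp

theorem move_cone {n : ℕ} {y : TT} (hy : y ∉ FF n) {ω : Om} (hω : ∀ j < n, ω j = 1) :
    ¬ ∀ j < n, ((y : Perm Om)⁻¹ ω) j = 1 := by
  intro h
  apply hy
  intro j hj
  have := ((TT_le y.2) n (fun _ => 1) ((y : Perm Om)⁻¹ ω)).1 (fun j hj => (h j hj).symm) j hj
  rw [this]
  simpa using hω j hj

theorem conj_fix {n : ℕ} {y : TT} (hy : y ∉ FF n) (g : TT) {ω : Om} (hω : ∀ j < n, ω j = 1) :
    ((y * JJ n g * y⁻¹ : TT) : Perm Om) ω = ω := by
  change (y : Perm Om) (EE n g ((y : Perm Om)⁻¹ ω)) = ω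
  rw [EE_fix n _ _ (move_cone hy hω)]
  simp

/-- Level stabilisers. -/
def UU (m : ℕ) : Subgroup TT where
  carrier := {g | ∀ ω, ∀ j < m, (g : Perm Om) ω j = ω j}
  one_mem' := fun _ _ _ => rfl
  mul_mem' := fun {a b} ha hb ω j hj => (ha ((b : Perm Om) ω) j hj).trans (hb ω j hj)
  inv_mem' := fun {a} ha ω j hj => by
    have := ha ((a : Perm Om)⁻¹ ω) j hj
    simpa using this.symm

instance (m : ℕ) : (UU m).Normal := ⟨fun g hg h ω j hj => by
  have := ((TT_le h.2) m ((g : Perm Om) ((h : Perm Om)⁻¹ ω)) ((h : Perm Om)⁻¹ ω)).1 (hg _) j hj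
  simpa using this⟩

/-- The rooted element. -/
def aa : TT := ⟨rt h0, rt_mem h0_mem⟩

theorem JJ_aa (n : ℕ) : JJ n aa ∉ FF (n + 1) := by
  intro h
  have h1 := h n (by omega)
  change EE n (rt h0) (fun _ => 1) n = 1 at h1
  rw [EE_rt n h0 _ fun _ _ => rfl, if_pos rfl] at h1
  exact absurd h1 (by decide)

theorem range_succ (n : ℕ) : (JJ (n + 1)).range ≤ (JJ n).range := by
  rintro _ ⟨g, rfl⟩
  exact ⟨⟨emb 1 g, emb_mem g.2⟩, Subtype.ext (EE_succ n g).symm⟩

instance : Countable TT := by
  have h1 : Countable gens := gens_finite.countable.to_subtype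
  have h2 : (TT : Set (Perm Om)) = range (FreeGroup.lift (Subtype.val : gens → Perm Om)) := by
    rw [← MonoidHom.coe_range, FreeGroup.range_lift_eq_closure, Subtype.range_coe]
    rfl
  have h3 : (TT : Set (Perm Om)).Countable := h2 ▸ countable_range _
  exact h3.to_subtype

theorem not_null : ¬ Null AA := by
  intro hnull
  let φ : (ℕ → Bool) → ℕ → TT → TT := fun ε n z =>
    (if ε n then JJ n aa else 1) * (z * JJ n aa * z⁻¹) * (JJ n aa)⁻¹
  have haa : ∀ n, JJ n aa ∈ AA n := fun n => ⟨aa, Or.inl ⟨h0, h0_mem, rfl⟩, rfl⟩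
  have hφ : ∀ ε n, Poly (AA n) (φ ε n) := by
    intro ε n
    refine (Poly.mul ?_ (Poly.const (haa n)).conj).mul (Poly.const (haa n)).inv
    split_ifs
    · exact Poly.const (haa n)
    · exact Poly.one
  choose z hz using fun ε => hnull (φ ε) (hφ ε)
  have hU : ∀ n, AA n ⊆ UU n := by
    rintro n _ ⟨g, -, rfl⟩
    exact EE_level n g
  have key : ∀ ε j, (z ε 0 : Perm Om) (fun _ => 1) j = if ε j then 0 else 1 := by
    intro ε j
    let w : ℕ → ℕ → TT := fun k => Nat.rec (fun _ => 1) (fun _ u n => φ ε n (u (n + 1))) k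
    have w0 : ∀ n, w 0 n = 1 := fun _ => rfl
    have ws : ∀ k n, w (k + 1) n = φ ε n (w k (n + 1)) := fun _ _ => rfl
    have h1 : ∀ k n, (QuotientGroup.mk' (UU (n + k))) (z ε n) =
        (QuotientGroup.mk' (UU (n + k))) (w k n) := by
      intro k
      induction k with
      | zero =>
        intro n
        rw [w0, map_one, QuotientGroup.mk'_apply, QuotientGroup.eq_one_iff, hz]
        exact (hφ ε n).mem_normal inferInstance (hU n) _
      | succ k ih =>
        intro n
        have h2 := ih (n + 1)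
        rw [show n + 1 + k = n + (k + 1) by omega] at h2
        rw [ws, hz]
        simp only [φ, map_mul, map_inv, h2]
    have h2 : ∀ k n, w k n ∈ (JJ n).range := by
      intro k
      induction k with
      | zero => exact fun n => Subgroup.one_mem _
      | succ k ih =>
        intro n
        have m1 : JJ n aa ∈ (JJ n).range := ⟨aa, rfl⟩
        have m2 := range_succ n (ih (n + 1))
        rw [ws]
        refine Subgroup.mul_mem _ (Subgroup.mul_mem _ ?_ (Subgroup.mul_mem _
          (Subgroup.mul_mem _ m2 m1) (Subgroup.inv_mem _ m2))) (Subgroup.inv_mem _ m1)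
        split_ifs
        · exact m1
        · exact Subgroup.one_mem _
    have h3 : ∀ k n j, (w k n).1 (fun _ => 1) j =
        if n ≤ j ∧ j < n + k ∧ ε j then 0 else 1 := by
      intro k
      induction k with
      | zero =>
        intro n j
        rw [w0, if_neg (by omega)]
        rfl
      | succ k ih =>
        intro n j
        obtain ⟨g, hg⟩ := (Subgroup.inv_mem _ (h2 k (n + 1)))
        have e1 : w (k + 1) n = (if ε n then JJ n aa else 1) * w k (n + 1) *
            (JJ n aa * JJ (n + 1) g * (JJ n aa)⁻¹) := by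
          rw [ws, hg]
          simp only [φ, mul_assoc]
        have e2 := conj_fix (JJ_aa n) g (ω := fun _ => 1) fun _ _ => rfl
        rw [e1, Subgroup.coe_mul, Perm.mul_apply, e2, Subgroup.coe_mul, Perm.mul_apply]
        cases hε : ε n
        · simp only [Bool.false_eq_true, if_false, Subgroup.coe_one, Perm.one_apply, ih]
          by_cases hj : j = n
          · subst hj
            simp [hε]
          · exact if_congr (and_congr (by omega) (and_congr (by omega) Iff.rfl)) rfl rfl
        · simp only [if_true]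
          change EE n (rt h0) _ j = _
          rw [EE_rt n h0 _ fun i hi => by rw [ih, if_neg (by omega)]]
          by_cases hj : j = n
          · subst hj
            rw [if_pos rfl, ih, if_neg (by omega), if_pos ⟨le_rfl, by omega, hε⟩]
            decide
          · rw [if_neg hj, ih]
            exact if_congr (and_congr (by omega) (and_congr (by omega) Iff.rfl)) rfl rfl
    have h4 := h1 (j + 1) 0
    rw [QuotientGroup.mk'_apply, QuotientGroup.mk'_apply, eq_comm, QuotientGroup.eq] at h4
    have h5 := ((TT_le (w (j + 1) 0).2) (0 + (j + 1)) _ _).1 (h4 fun _ => 1) j (by omega)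
    have h6 := h5.trans (h3 (j + 1) 0 j)
    simpa using h6
  have hinj : Function.Injective fun ε => z ε 0 := by
    intro ε ε' h
    funext j
    have h1 := key ε j
    have h2 := key ε' j
    simp only at h
    rw [h, h2] at h1
    revert h1
    cases ε j <;> cases ε' j <;> simp
  have hc : Countable (ℕ → Bool) := hinj.countable
  obtain ⟨f, hf⟩ := exists_surjective_nat (ℕ → Bool)
  obtain ⟨n, hn⟩ := hf fun n => !f n n
  have := congrFun hn n
  simp at this

theorem no_strat_TT {S : Type w} (σ : Strat TT S) (s : S) : σ.val s ≠ AA 0 := by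
  refine no_strat AA (fun n => (gens_finite.preimage Subtype.val_injective.injOn).image _)
    (fun n => ?_) (fun n => ?_) FF (fun n => ?_) (fun n y hy k hk k' hk' => ?_) not_null σ s
  · rw [closure_AA, closure_AA]
    exact range_succ n
  · rw [closure_AA, MonoidHom.range_eq_map, ← Subgroup.map_commutator]
    apply Subgroup.map_mono
    rw [← Subgroup.map_le_map_iff_of_injective TT.subtype_injective, Subgroup.map_commutator,
      ← MonoidHom.range_eq_map, Subgroup.range_subtype]
    exact TT_perfect
  · rw [closure_AA]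
    exact fun h => JJ_aa n (h ⟨aa, rfl⟩)
  · rw [closure_AA] at hk hk'
    obtain ⟨g, rfl⟩ := hk
    obtain ⟨g', rfl⟩ := hk'
    have : Commute ((y * JJ n g * y⁻¹ : TT) : Perm Om) ((JJ n g' : TT) : Perm Om) := by
      apply Perm.Disjoint.commute
      intro ω
      by_cases hω : ∀ j < n, ω j = 1
      · exact Or.inl (conj_fix hy g hω)
      · exact Or.inr (EE_fix n _ ω hω)
    exact Subtype.ext this

theorem not_K : ¬ K (ULift.{u} TT) := by
  rintro ⟨S, σ, hσ⟩
  let f : ULift.{u} TT →* TT := MulEquiv.ulift.toMonoidHom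
  have hf : Function.Surjective f := MulEquiv.ulift.surjective
  obtain ⟨B, h1, -, h3⟩ := exists_finite_lift f (M := univ) (A := AA 0)
    ((gens_finite.preimage Subtype.val_injective.injOn).image _)
    (by rw [image_univ, hf.range_eq]; exact subset_univ _)
  obtain ⟨s, hs⟩ := hσ B h1 (subset_univ _)
  exact no_strat_TT (σ.map f) s (by rw [← h3, ← hs]; rfl)

end Pool.Agent.H384Z.Rad
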